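import Mathlib
import Pool.Agent.W484.CK.Stm

/-!
# Perfectness of the intersection pairing: definitions
-/

set_option autoImplicit false

open CategoryTheory AlgebraicGeometry
open scoped TensorProduct

universe u v w

namespace Pool.Agent.Y154.BQ

open Polynomial Pool.Agent.H914 Pool.Agent.H914.VarClass Pool.Agent.H914.VarClass.Obj
  Pool.Agent.W492.BB Pool.Agent.W484.CK

/-- Let `d` be a relation between the elements of `V`, those of `W` and the rational numbers (the
graph of a bilinear form `β`). Then `PerfectReal d` means: the real vector spaces `ℝ ⊗ V` and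
`ℝ ⊗ W` are finite-dimensional, and for a bilinear form `B` on them with `B(a ⊗ v, b ⊗ w) = a b m`,
where `m` is a rational number with `d v w m` (that is, `m = β(v, w)`), the map
`ℝ ⊗ V → Hom(ℝ ⊗ W, ℝ)` is bijective. -/
def PerfectReal {V W : Type v} [AddCommGroup V] [Module ℚ V] [AddCommGroup W] [Module ℚ W]
    (d : V → W → ℚ → Prop) : Prop :=
  Module.Finite ℝ (ℝ ⊗[ℚ] V) ∧ Module.Finite ℝ (ℝ ⊗[ℚ] W) ∧
  ∃ B : (ℝ ⊗[ℚ] V) →ₗ[ℝ] (ℝ ⊗[ℚ] W) →ₗ[ℝ] ℝ, Function.Bijective B ∧
    ∀ (a b : ℝ) (v : V) (w : W), ∃ m : ℚ, d v w m ∧ B (a ⊗ₜ v) (b ⊗ₜ w) = a * b * m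

section

variable {k : Type u} [Field k] {𝒱 : VarClass k} (C : TheoryData.{u, v, 0} 𝒱 ℚ)

/-- The zero-cycle `t` on `X` has degree `n`: the push-forward of `t × X` to `X` is `n` times the
fundamental class of `X`. -/
def HasDegree {X : 𝒱.Obj} (t : C.A X) (n : ℚ) : Prop :=
  C.down (snd X X) (C.up (fst X X) t) = n • (1 : C.A X)

/-- The intersection pairing `CH^n(X)_ℝ × CH^(d-n)(X)_ℝ → ℝ`, `d = dim X`, is perfect: both spaces
are finite-dimensional, and the map `CH^n(X)_ℝ → Hom(CH^(d-n)(X)_ℝ, ℝ)` is bijective. Here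
`CH^n(X)_ℝ` is the tensor product of `ℝ` with the group `CH^n(X)` with rational coefficients, and
the pairing is the bilinear form `B` with `B(a ⊗ z, b ⊗ w) = a b deg(z · w)`. -/
def PerfectIn (X : 𝒱.Obj) (n : ℤ) : Prop :=
  PerfectReal (V := C.gr X n) (W := C.gr X (X.dim - n)) fun z w m =>
    HasDegree C (C.mul (z : C.A X) (w : C.A X)) m

/-- For every `n` the pairing `CH^n(A × Z)_ℝ × CH^(dim A + dim Z - n)(A × Z)_ℝ → ℝ` is perfect if
and only if the pairings `CH^m(Z)_ℝ × CH^(dim Z - m)(Z)_ℝ → ℝ` with `n - dim A ≤ m ≤ n` are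
perfect. -/
def PairingsReduce (A Z : 𝒱.Obj) : Prop :=
  ∀ n : ℤ, PerfectIn C (A.prod Z) n ↔ ∀ m : ℤ, n - A.dim ≤ m → m ≤ n → PerfectIn C Z m

end

/-- `PairingForRankOver E q r f`: the following holds for the Chow groups `C` with rational
coefficients of all classes `𝒱` of varieties over fields `k` (finite, in the intended use), every
Weil cohomology theory `H` with coefficients in an algebraically closed field `K` of characteristic
zero and all `A`, `Z` as in `IsSituation`, where the Frobenius endomorphism `πA × πZ` of `A × Z`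
acts on its Chow groups in the usual way: the Kunneth formula holds for the Chow groups of `A × Z`,
and for every `n` the pairing `CH^n(A × Z)_ℝ × CH^(dim A + dim Z - n)(A × Z)_ℝ → ℝ` is perfect if
and only if the pairings `CH^m(Z)_ℝ × CH^(dim Z - m)(Z)_ℝ → ℝ` with `n - dim A ≤ m ≤ n` are
perfect. -/
def PairingForRankOver (E : IntermediateField ℚ ℂ) (q r : ℕ) {I : Type} (f : I → ℤ[X]) : Prop :=
  ∀ (k : Type) [Field k] (𝒱 : VarClass k) (C : TheoryData.{0, 0, 0} 𝒱 ℚ) [IsChow C]
    (K : Type) [Field K] [IsAlgClosed K] [CharZero K] (H : WeilTheoryData.{0, 0, 0} C K)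
    [IsWeil H] (s : ℕ) (A Z : 𝒱.Obj) (πA : A ⟶ A) (πZ : Z ⟶ Z),
      IsSituation H E q r s f πA πZ → IsFrobenius C (prodMap πA πZ) (q ^ s) →
        ChowKunneth C A Z ∧ PairingsReduce C A Z

end Pool.Agent.Y154.BQ
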