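import Mathlib

/-!
Linear algebra: perfect pairings of rational vector spaces with real coefficients.
-/

set_option autoImplicit false

open scoped TensorProduct

namespace Pool.Agent.Y154.BQ

section lin

variable {V W : Type*} [AddCommGroup V] [Module ℚ V] [AddCommGroup W] [Module ℚ W]

/-- A bilinear form whose left and right kernels vanish, on finite dimensional spaces. -/
structure Perf (β : V →ₗ[ℚ] W →ₗ[ℚ] ℚ) : Prop where
  finV : Module.Finite ℚ V
  finW : Module.Finite ℚ W
  left : ∀ v, (∀ w, β v w = 0) → v = 0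
  right : ∀ w, (∀ v, β v w = 0) → w = 0

/-- The bilinear form with real coefficients given by `β` is perfect. -/
def RPerf (β : V →ₗ[ℚ] W →ₗ[ℚ] ℚ) : Prop :=
  Module.Finite ℝ (ℝ ⊗[ℚ] V) ∧ Module.Finite ℝ (ℝ ⊗[ℚ] W) ∧
  ∃ B : (ℝ ⊗[ℚ] V) →ₗ[ℝ] (ℝ ⊗[ℚ] W) →ₗ[ℝ] ℝ, Function.Bijective B ∧
    ∀ (a b : ℝ) (v : V) (w : W), B (a ⊗ₜ v) (b ⊗ₜ w) = a * b * β v w

theorem fin_of_real (h : Module.Finite ℝ (ℝ ⊗[ℚ] V)) : Module.Finite ℚ V := by
  have h1 : Module.rank ℝ (ℝ ⊗[ℚ] V) < Cardinal.aleph0 := Module.rank_lt_aleph0 ℝ _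
  rw [← Module.rank_lt_aleph0_iff]
  rw [Module.rank_baseChange] at h1
  simpa using h1

theorem mk_inj {v : V} (h : (1 : ℝ) ⊗ₜ[ℚ] v = 0) : v = 0 := by
  have h1 : Function.Injective (TensorProduct.mk ℚ ℝ V 1) :=
    Module.FaithfullyFlat.tensorProduct_mk_injective V
  apply h1
  rw [map_zero]
  exact h

/-- The extension of a bilinear form to real coefficients. -/
noncomputable def ext (β : V →ₗ[ℚ] W →ₗ[ℚ] ℚ) : (ℝ ⊗[ℚ] V) →ₗ[ℝ] (ℝ ⊗[ℚ] W) →ₗ[ℝ] ℝ :=
  LinearMap.liftBaseChange ℝ
    ((((LinearMap.liftBaseChangeEquiv ℝ (M := W) (N := ℝ)).toLinearMap.restrictScalars ℚ).comp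
      (LinearMap.compRight ℚ ((Algebra.linearMap ℚ ℝ))) : _ →ₗ[ℚ] _).comp β)

theorem ext_tmul (β : V →ₗ[ℚ] W →ₗ[ℚ] ℚ) (a b : ℝ) (v : V) (w : W) :
    ext β (a ⊗ₜ v) (b ⊗ₜ w) = a * b * β v w := by
  simp [ext]
  ring

theorem perf_of_rperf {β : V →ₗ[ℚ] W →ₗ[ℚ] ℚ} (h : RPerf β) : Perf β := by
  obtain ⟨h1, h2, B, hB, hBβ⟩ := h
  refine ⟨fin_of_real h1, fin_of_real h2, fun v hv => ?_, fun w hw => ?_⟩
  · apply mk_inj
    apply hB.1
    rw [map_zero]
    refine LinearMap.ext fun y => ?_
    rw [LinearMap.zero_apply]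
    induction y using TensorProduct.induction_on with
    | zero => rw [map_zero]
    | tmul b w => rw [hBβ, hv w]; simp
    | add y y' hy hy' => rw [map_add, hy, hy', add_zero]
  · apply mk_inj
    refine (Module.forall_dual_apply_eq_zero_iff ℝ _).1 fun φ => ?_
    obtain ⟨x, rfl⟩ := hB.2 φ
    induction x using TensorProduct.induction_on with
    | zero => rw [map_zero, LinearMap.zero_apply]
    | tmul a v => rw [hBβ, hw v]; simp
    | add y y' hy hy' => rw [map_add, LinearMap.add_apply, hy, hy', add_zero]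

theorem rperf_of_perf {β : V →ₗ[ℚ] W →ₗ[ℚ] ℚ} (h : Perf β) : RPerf β := by
  classical
  have h1 := h.finV
  have h2 := h.finW
  refine ⟨inferInstance, inferInstance, ext β, ?_, ext_tmul β⟩
  -- the dimensions
  have hinj : Function.Injective β := by
    rw [injective_iff_map_eq_zero]
    intro v hv
    exact h.left v fun w => by rw [hv, LinearMap.zero_apply]
  have hinj' : Function.Injective β.flip := by
    rw [injective_iff_map_eq_zero]
    intro w hw
    refine h.right w fun v => ?_
    have := LinearMap.congr_fun hw v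
    simpa using this
  have hd1 : Module.finrank ℚ V ≤ Module.finrank ℚ W := by
    have := LinearMap.finrank_le_finrank_of_injective hinj
    rwa [Subspace.dual_finrank_eq] at this
  have hd2 : Module.finrank ℚ W ≤ Module.finrank ℚ V := by
    have := LinearMap.finrank_le_finrank_of_injective hinj'
    rwa [Subspace.dual_finrank_eq] at this
  have hd := le_antisymm hd1 hd2
  have hsurj : Function.Surjective β.flip := by
    refine (LinearMap.injective_iff_surjective_of_finrank_eq_finrank ?_).1 hinj'
    rw [Subspace.dual_finrank_eq, hd]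
  -- injectivity of the extension
  have hext : Function.Injective (ext β) := by
    rw [injective_iff_map_eq_zero]
    intro x hx
    let b := Module.finBasis ℚ V
    have e : x = ∑ i, (b.baseChange ℝ).repr x i • ((1 : ℝ) ⊗ₜ[ℚ] b i) := by
      conv_lhs => rw [← (b.baseChange ℝ).sum_repr x]
      simp
    have h3 : ∀ i, (b.baseChange ℝ).repr x i = 0 := by
      intro i
      obtain ⟨w, hw⟩ := hsurj (b.coord i)
      have h4 : ∀ l, β (b l) w = if l = i then 1 else 0 := by
        intro l
        have := LinearMap.congr_fun hw (b l)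
        simp only [LinearMap.flip_apply, Module.Basis.coord_apply, Module.Basis.repr_self] at this
        rw [this, Finsupp.single_apply]
      have h5 : ext β x ((1 : ℝ) ⊗ₜ w) = 0 := by rw [hx, LinearMap.zero_apply]
      rw [e, map_sum, LinearMap.sum_apply, Finset.sum_eq_single i] at h5
      · rw [map_smul, LinearMap.smul_apply, ext_tmul, h4, if_pos rfl] at h5
        simpa using h5
      · intro l _ hl
        rw [map_smul, LinearMap.smul_apply, ext_tmul, h4, if_neg hl]
        simp
      · intro hn; exact absurd (Finset.mem_univ i) hn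
    rw [e]
    refine Finset.sum_eq_zero fun i _ => ?_
    rw [h3, zero_smul]
  refine ⟨hext, ?_⟩
  refine (LinearMap.injective_iff_surjective_of_finrank_eq_finrank ?_).1 hext
  rw [Subspace.dual_finrank_eq, Module.finrank_baseChange, Module.finrank_baseChange, hd]

theorem rperf_iff {β : V →ₗ[ℚ] W →ₗ[ℚ] ℚ} : RPerf β ↔ Perf β := ⟨perf_of_rperf, rperf_of_perf⟩

/-- Direct sums of pairings. -/
theorem perf_pi_iff {J : Type*} [Fintype J] {V' W' : J → Type*} [∀ j, AddCommGroup (V' j)]
    [∀ j, Module ℚ (V' j)] [∀ j, AddCommGroup (W' j)] [∀ j, Module ℚ (W' j)]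
    (β : V →ₗ[ℚ] W →ₗ[ℚ] ℚ) (β' : ∀ j, V' j →ₗ[ℚ] W' j →ₗ[ℚ] ℚ)
    (e : V ≃ₗ[ℚ] (∀ j, V' j)) (f : W ≃ₗ[ℚ] (∀ j, W' j)) (c : ℚ) (hc : c ≠ 0)
    (h : ∀ v w, c * β v w = ∑ j, β' j (e v j) (f w j)) : Perf β ↔ ∀ j, Perf (β' j) := by
  classical
  constructor
  · intro hβ j
    have h1 := hβ.finV
    have h2 := hβ.finW
    refine ⟨?_, ?_, fun v hv => ?_, fun w hw => ?_⟩
    · have : Function.Surjective ((LinearMap.proj j).comp e.toLinearMap : V →ₗ[ℚ] V' j) :=
        fun x => ⟨e.symm (Pi.single j x), by simp⟩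
      exact Module.Finite.of_surjective _ this
    · have : Function.Surjective ((LinearMap.proj j).comp f.toLinearMap : W →ₗ[ℚ] W' j) :=
        fun x => ⟨f.symm (Pi.single j x), by simp⟩
      exact Module.Finite.of_surjective _ this
    · have h3 := hβ.left (e.symm (Pi.single j v)) fun w => by
        have h4 := h (e.symm (Pi.single j v)) w
        rw [LinearEquiv.apply_symm_apply, Finset.sum_eq_single j] at h4
        · rw [Pi.single_eq_same, hv] at h4
          exact (mul_eq_zero.1 h4).resolve_left hc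
        · intro l _ hl
          rw [Pi.single_eq_of_ne hl, map_zero, LinearMap.zero_apply]
        · intro hn; exact absurd (Finset.mem_univ j) hn
      rw [LinearEquiv.map_eq_zero_iff] at h3
      have h5 := congrFun h3 j
      rwa [Pi.single_eq_same] at h5
    · have h3 := hβ.right (f.symm (Pi.single j w)) fun v => by
        have h4 := h v (f.symm (Pi.single j w))
        rw [LinearEquiv.apply_symm_apply, Finset.sum_eq_single j] at h4
        · rw [Pi.single_eq_same, hw] at h4
          exact (mul_eq_zero.1 h4).resolve_left hc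
        · intro l _ hl
          rw [Pi.single_eq_of_ne hl, map_zero]
        · intro hn; exact absurd (Finset.mem_univ j) hn
      rw [LinearEquiv.map_eq_zero_iff] at h3
      have h5 := congrFun h3 j
      rwa [Pi.single_eq_same] at h5
  · intro hβ
    have h1 : ∀ j, Module.Finite ℚ (V' j) := fun j => (hβ j).finV
    have h2 : ∀ j, Module.Finite ℚ (W' j) := fun j => (hβ j).finW
    refine ⟨Module.Finite.equiv e.symm, Module.Finite.equiv f.symm, fun v hv => ?_, fun w hw => ?_⟩
    · apply e.injective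
      rw [map_zero]
      funext j
      refine (hβ j).left _ fun w => ?_
      have h4 := h v (f.symm (Pi.single j w))
      rw [hv, mul_zero, LinearEquiv.apply_symm_apply, Finset.sum_eq_single j] at h4
      · rw [Pi.single_eq_same] at h4; exact h4.symm
      · intro l _ hl
        rw [Pi.single_eq_of_ne hl, map_zero]
      · intro hn; exact absurd (Finset.mem_univ j) hn
    · apply f.injective
      rw [map_zero]
      funext j
      refine (hβ j).right _ fun v => ?_
      have h4 := h (e.symm (Pi.single j v)) w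
      rw [hw, mul_zero, LinearEquiv.apply_symm_apply, Finset.sum_eq_single j] at h4
      · rw [Pi.single_eq_same] at h4; exact h4.symm
      · intro l _ hl
        rw [Pi.single_eq_of_ne hl, map_zero, LinearMap.zero_apply]
      · intro hn; exact absurd (Finset.mem_univ j) hn

end lin

end Pool.Agent.Y154.BQ
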