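import Mathlib
import Pool.Agent.Y154.BQ.Lin
import Pool.Agent.Y154.BQ.Defs
import Pool.Agent.W484.CH.Conj

/-!
# The degree of zero-cycles and the pairings
-/

set_option autoImplicit false
set_option linter.unusedSectionVars false

open CategoryTheory AlgebraicGeometry
open scoped TensorProduct

universe u v w

namespace Pool.Agent.Y154.BQ

open Module Pool.Agent.H914 Pool.Agent.H914.VarClass Pool.Agent.H914.VarClass.Obj
  Pool.Agent.W492.BB Pool.Agent.W550.Corr Pool.Agent.W484.TB Pool.Agent.W484.CH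

variable {k : Type u} [Field k] {𝒱 : VarClass k} {C : TheoryData.{u, v, 0} 𝒱 ℚ} {K : Type w}
  [Field K] [CharZero K] {H : WeilTheoryData.{u, v, w} C K} [hC : IsChow C] [hH : IsWeil H]
  (hS : IsStandard H) {A Z X Y : 𝒱.Obj}

include hS

theorem chow_one_ne : (1 : C.A X) ≠ 0 := by
  intro h
  have := hS.nontrivial X
  have h1 : H.cl (1 : C.A X) = 0 := by rw [h, map_zero]
  rw [map_one] at h1
  exact one_ne_zero h1

theorem hasDegree_unique {t : C.A X} {m n : ℚ} (hm : HasDegree C t m) (hn : HasDegree C t n) :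
    m = n := by
  have h1 : (m - n) • (1 : C.A X) = 0 := by
    rw [sub_smul, ← hm, ← hn, sub_self]
  rcases smul_eq_zero.1 h1 with h | h
  · exact sub_eq_zero.1 h
  · exact absurd h (chow_one_ne hS)

theorem hasDegree_exists {t : C.A X} {i : ℤ} (hi : i = X.dim) (ht : t ∈ C.gr X i) :
    ∃ n : ℚ, HasDegree C t n := by
  have h1 := C.push_mem (snd X X) (C.pull_mem (fst X X) ht)
  have h2 : i + 1 * ((X.dim : ℤ) - (X.prod X).dim) = 0 := by
    rw [Obj.dim_prod, hi]
    push_cast
    ring
  rw [h2] at h1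
  exact hS.chow_zero _ _ h1

/-- The trace of the class of a zero-cycle is a constant multiple of its degree. -/
theorem exists_kappa (X : 𝒱.Obj) : ∃ κ : K, κ ≠ 0 ∧ ∀ (t : C.A X) (n : ℚ), HasDegree C t n →
    H.tr X (H.cl t) = (n : K) * κ := by
  obtain ⟨τ, hτ, htr⟩ := exists_tau hS X X
  have hne : ∃ h : H.A X, H.tr X h ≠ 0 := by
    by_contra hcon
    push Not at hcon
    have := hS.nontrivial X
    apply one_ne_zero (α := H.A X)
    apply H.nondeg
    intro b
    exact hcon _
  obtain ⟨h, hh⟩ := hne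
  refine ⟨τ, hτ, fun t n ht => ?_⟩
  have h1 : H.tr (X.prod X) (H.ext (H.cl t) h) = (n : K) * H.tr X h := by
    rw [TheoryData.ext, tr_snd, ← H.cl_pull, ← H.cl_push]
    have h2 : C.push (snd X X) (C.pull (fst X X) t) = n • (1 : C.A X) := ht
    rw [h2, cl_smul, map_one, smul_mul_assoc, one_mul, map_smul, smul_eq_mul]
  have h2 := htr (H.cl t) h
  rw [h1] at h2
  have h3 : (H.tr X (H.cl t) - (n : K) * τ) * H.tr X h = 0 := by
    rw [sub_mul, ← h2]; ring
  rcases mul_eq_zero.1 h3 with h4 | h4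
  · exact sub_eq_zero.1 h4
  · exact absurd h4 hh

omit hS in
theorem hasDegree_add {t t' : C.A X} {m n : ℚ} (hm : HasDegree C t m) (hn : HasDegree C t' n) :
    HasDegree C (t + t') (m + n) := by
  unfold HasDegree TheoryData.down TheoryData.up at *
  rw [map_add, map_add, hm, hn, add_smul]

omit hS in
theorem hasDegree_smul {t : C.A X} {m : ℚ} (c : ℚ) (hm : HasDegree C t m) :
    HasDegree C (c • t) (c * m) := by
  unfold HasDegree TheoryData.down TheoryData.up at *
  rw [map_smul, map_smul, hm, mul_smul]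

/-- The rational form of the pairing. -/
theorem exists_form (X : 𝒱.Obj) (n : ℤ) : ∃ β : C.gr X n →ₗ[ℚ] C.gr X (X.dim - n) →ₗ[ℚ] ℚ,
    ∀ (z : C.gr X n) (w : C.gr X (X.dim - n)), HasDegree C ((z : C.A X) * (w : C.A X)) (β z w) := by
  have h0 : ∀ (z : C.gr X n) (w : C.gr X (X.dim - n)), ∃ m : ℚ, HasDegree C ((z : C.A X) * (w : C.A X)) m :=
    fun z w => hasDegree_exists hS (i := n + (X.dim - n)) (by ring) (C.mul_mem z.2 w.2)
  choose m hm using h0
  refine ⟨LinearMap.mk₂ ℚ m ?_ ?_ ?_ ?_, fun z w => hm z w⟩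
  · intro z z' w
    refine hasDegree_unique hS (hm _ _) ?_
    have := hasDegree_add (hm z w) (hm z' w)
    rwa [← add_mul] at this
  · intro c z w
    refine hasDegree_unique hS (hm _ _) ?_
    have := hasDegree_smul c (hm z w)
    rwa [← smul_mul_assoc] at this
  · intro z w w'
    refine hasDegree_unique hS (hm _ _) ?_
    have := hasDegree_add (hm z w) (hm z w')
    rwa [← mul_add] at this
  · intro c z w
    refine hasDegree_unique hS (hm _ _) ?_
    have := hasDegree_smul c (hm z w)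
    rwa [← mul_smul_comm] at this

theorem perfectIn_iff (X : 𝒱.Obj) (n : ℤ) (β : C.gr X n →ₗ[ℚ] C.gr X (X.dim - n) →ₗ[ℚ] ℚ)
    (hβ : ∀ (z : C.gr X n) (w : C.gr X (X.dim - n)), HasDegree C ((z : C.A X) * (w : C.A X)) (β z w)) :
    PerfectIn C X n ↔ Perf β := by
  rw [← rperf_iff]
  unfold PerfectIn PerfectReal RPerf
  refine and_congr_right fun _ => and_congr_right fun _ => exists_congr fun B =>
    and_congr_right fun _ => ?_
  constructor
  · intro h a b z w
    obtain ⟨m, hm1, hm2⟩ := h a b z w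
    rw [hasDegree_unique hS hm1 (hβ z w)] at hm2
    exact hm2
  · intro h a b z w
    exact ⟨β z w, hβ z w, h a b z w⟩

end Pool.Agent.Y154.BQ
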