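import Mathlib
import Pool.Agent.Y154.BQ.Pair

/-!
# The pairings and the Kunneth formula
-/

set_option autoImplicit false
set_option linter.unusedSectionVars false

open CategoryTheory AlgebraicGeometry
open scoped TensorProduct

universe u v w

namespace Pool.Agent.Y154.BQ

open Module Pool.Agent.H914 Pool.Agent.H914.VarClass Pool.Agent.H914.VarClass.Obj
  Pool.Agent.W492.BB Pool.Agent.W550.Corr Pool.Agent.W484.TB Pool.Agent.W484.CH

variable {k : Type u} [Field k] {𝒱 : VarClass k} {C : TheoryData.{u, v, 0} 𝒱 ℚ} {K : Type w}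
  [Field K] [CharZero K] {H : WeilTheoryData.{u, v, w} C K} [hC : IsChow C] [hH : IsWeil H]
  (hS : IsStandard H) {A Z X Y : 𝒱.Obj} {J : Type} [Fintype J] {deg : J → ℕ} {D E : J → C.A A}

section expand

variable (h : IsDual A Z deg D E) (hK : HasKunneth (chowData C) A Z deg D)

include h in
theorem push_DE [DecidableEq J] (i j : J) :
    C.push (snd A Z) (C.pull (fst A Z) (D i * E j)) = if i = j then 1 else 0 := by
  by_cases hij : i = j
  · subst hij; rw [if_pos rfl, h.eq]
  · rw [if_neg hij, h.ne i j hij]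

include hS in
theorem const_of_mem {i : ℤ} {a : C.A A} (ha : a ∈ C.gr A i) :
    ∃ c : ℚ, C.push (snd A Z) (C.pull (fst A Z) a) = c • (1 : C.A Z) := by
  have h1 := C.push_mem (snd A Z) (C.pull_mem (fst A Z) ha)
  have h2 : i + 1 * ((Z.dim : ℤ) - (A.prod Z).dim) = i - A.dim := by
    rw [Obj.dim_prod]
    push_cast
    ring
  rw [h2] at h1
  rcases lt_trichotomy i A.dim with h3 | h3 | h3
  · rw [C.gr_neg Z _ (by omega), Submodule.mem_bot] at h1
    exact ⟨0, by rw [h1, zero_smul]⟩
  · rw [h3, sub_self] at h1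
    exact hS.chow_zero _ _ h1
  · rw [hS.chow_top A i h3, Submodule.mem_bot] at ha
    exact ⟨0, by rw [ha, map_zero, map_zero, zero_smul]⟩

include hS h hK in
/-- The expansion with respect to the dual classes. -/
theorem dual_expand {i : ℤ} {y : C.A (A.prod Z)} (hy : C.Deg i y) :
    y = ∑ m, C.ext (E m) (C.push (snd A Z) (C.pull (fst A Z) (D m) * y)) := by
  have h0 : ∀ j l, ∃ c : ℚ, C.push (snd A Z) (C.pull (fst A Z) (E j * E l)) = c • (1 : C.A Z) :=
    fun j l => const_of_mem hS (C.mul_mem (h.right j) (h.right l))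
  choose c hc using h0
  have hsymm : ∀ j l, c j l = c l j := by
    intro j l
    have h1 : (c j l - c l j) • (1 : C.A Z) = 0 := by
      rw [sub_smul, ← hc, ← hc, chow_mul_comm (E j) (E l), sub_self]
    rcases smul_eq_zero.1 h1 with h | h
    · exact sub_eq_zero.1 h
    · exact absurd h (chow_one_ne hS)
  have hE : ∀ j, C.pull (fst A Z) (E j) = ∑ l, c l j • C.pull (fst A Z) (D l) := by
    intro j
    have h1 := chow_expand h hK (C.pull_mem (fst A Z) (h.right j))
    rw [h1]
    refine Finset.sum_congr rfl fun l _ => ?_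
    rw [← map_mul, hc, TheoryData.ext, map_smul, map_one, mul_smul_comm, mul_one]
  have h1 := chow_expand h hK hy
  have h2 : ∀ l, C.push (snd A Z) (C.pull (fst A Z) (E l) * y) =
      ∑ m, c m l • C.push (snd A Z) (C.pull (fst A Z) (D m) * y) := by
    intro l
    rw [hE l, Finset.sum_mul, map_sum]
    refine Finset.sum_congr rfl fun m _ => ?_
    rw [smul_mul_assoc, map_smul]
  calc y = ∑ l, ∑ m, c m l • (C.pull (fst A Z) (D l) *
        C.pull (snd A Z) (C.push (snd A Z) (C.pull (fst A Z) (D m) * y))) := by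
        conv_lhs => rw [h1]
        refine Finset.sum_congr rfl fun l _ => ?_
        rw [h2 l, TheoryData.ext, map_sum, Finset.mul_sum]
        refine Finset.sum_congr rfl fun m _ => ?_
        rw [map_smul, mul_smul_comm]
    _ = ∑ m, ∑ l, c m l • (C.pull (fst A Z) (D l) *
        C.pull (snd A Z) (C.push (snd A Z) (C.pull (fst A Z) (D m) * y))) := Finset.sum_comm
    _ = _ := by
        refine Finset.sum_congr rfl fun m _ => ?_
        rw [TheoryData.ext, hE m, Finset.sum_mul]
        refine Finset.sum_congr rfl fun l _ => ?_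
        rw [smul_mul_assoc, hsymm m l]

end expand

section equivs

variable (h : IsDual A Z deg D E) (hK : HasKunneth (chowData C) A Z deg D)

theorem ext_mem {i j : ℤ} {a : C.A A} {z : C.A Z} (ha : a ∈ C.gr A i) (hz : z ∈ C.gr Z j) :
    C.ext a z ∈ C.gr (A.prod Z) (i + j) :=
  C.mul_mem (C.pull_mem (fst A Z) ha) (C.pull_mem (snd A Z) hz)

theorem push_pair_mem {i j l : ℤ} (hl : l = i + j - A.dim) {a : C.A A} {x : C.A (A.prod Z)}
    (ha : a ∈ C.gr A i) (hx : x ∈ C.gr (A.prod Z) j) :
    C.push (snd A Z) (C.pull (fst A Z) a * x) ∈ C.gr Z l := by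
  have h1 := C.push_mem (snd A Z) (C.mul_mem (C.pull_mem (fst A Z) ha) hx)
  have h2 : i + j + 1 * ((Z.dim : ℤ) - (A.prod Z).dim) = l := by
    rw [Obj.dim_prod, hl]
    push_cast
    ring
  rwa [h2] at h1

theorem push_ext (a b : C.A A) (z : C.A Z) :
    C.push (snd A Z) (C.pull (fst A Z) a * C.ext b z) =
      C.push (snd A Z) (C.pull (fst A Z) (b * a)) * z := by
  rw [TheoryData.ext, ← mul_assoc, ← map_mul, chow_mul_comm a b, C.proj_right]

/-- The components of a class of codimension `n`. -/
noncomputable def eqE (n : ℤ) : C.gr (A.prod Z) n ≃ₗ[ℚ] (∀ j, C.gr Z (n - deg j)) where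
  toFun x j := ⟨C.push (snd A Z) (C.pull (fst A Z) (E j) * (x : C.A (A.prod Z))),
    push_pair_mem (by ring) (h.right j) x.2⟩
  map_add' x y := by
    funext j
    apply Subtype.ext
    simp only [Submodule.coe_add, Pi.add_apply, mul_add, map_add]
  map_smul' c x := by
    funext j
    apply Subtype.ext
    simp only [Submodule.coe_smul, Pi.smul_apply, mul_smul_comm, map_smul, RingHom.id_apply]
  invFun z := ⟨∑ j, C.ext (D j) (z j : C.A Z), Submodule.sum_mem _ fun j _ => by
    have := ext_mem (h.left j) (z j).2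
    rwa [add_sub_cancel] at this⟩
  left_inv x := by
    apply Subtype.ext
    exact (chow_expand h hK x.2).symm
  right_inv z := by
    classical
    funext j
    apply Subtype.ext
    show C.push (snd A Z) (C.pull (fst A Z) (E j) * ∑ l, C.ext (D l) (z l : C.A Z)) = z j
    rw [Finset.mul_sum, map_sum]
    rw [Finset.sum_congr rfl fun l _ => by rw [push_ext, push_DE h]]
    rw [Finset.sum_eq_single j]
    · rw [if_pos rfl, one_mul]
    · intro l _ hl; rw [if_neg hl, zero_mul]
    · intro hn; exact absurd (Finset.mem_univ j) hn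

include hS h hK in
/-- The components of a class of complementary codimension. -/
theorem exists_eqD (n : ℤ) : ∃ f : C.gr (A.prod Z) ((A.prod Z).dim - n) ≃ₗ[ℚ]
    (∀ j, C.gr Z (Z.dim - (n - deg j))), ∀ y j,
      (f y j : C.A Z) = C.push (snd A Z) (C.pull (fst A Z) (D j) * (y : C.A (A.prod Z))) := by
  classical
  have hdim : ((A.prod Z).dim : ℤ) = A.dim + Z.dim := by
    rw [Obj.dim_prod]; push_cast; ring
  refine ⟨{
    toFun := fun y j => ⟨C.push (snd A Z) (C.pull (fst A Z) (D j) * (y : C.A (A.prod Z))),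
      push_pair_mem (by rw [hdim]; ring) (h.left j) y.2⟩
    map_add' := fun x y => by
      funext j
      apply Subtype.ext
      simp only [Submodule.coe_add, Pi.add_apply, mul_add, map_add]
    map_smul' := fun c x => by
      funext j
      apply Subtype.ext
      simp only [Submodule.coe_smul, Pi.smul_apply, mul_smul_comm, map_smul, RingHom.id_apply]
    invFun := fun z => ⟨∑ j, C.ext (E j) (z j : C.A Z), Submodule.sum_mem _ fun j _ => by
      have := ext_mem (h.right j) (z j).2
      rw [hdim]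
      convert this using 2
      ring⟩
    left_inv := fun y => by
      apply Subtype.ext
      exact (dual_expand hS h hK y.2).symm
    right_inv := fun z => ?_ }, fun y j => rfl⟩
  funext j
  apply Subtype.ext
  show C.push (snd A Z) (C.pull (fst A Z) (D j) * ∑ l, C.ext (E l) (z l : C.A Z)) = z j
  rw [Finset.mul_sum, map_sum]
  rw [Finset.sum_congr rfl fun l _ => by rw [push_ext, chow_mul_comm (E l) (D j), push_DE h]]
  rw [Finset.sum_eq_single j]
  · rw [if_pos rfl, one_mul]
  · intro l _ hl; rw [if_neg (Ne.symm hl), zero_mul]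
  · intro hn; exact absurd (Finset.mem_univ j) hn

include hS in
theorem exists_const (A Z : 𝒱.Obj) : ∃ c : ℚ, c ≠ 0 ∧ ∀ (t : C.A (A.prod Z)) (m n : ℚ),
    HasDegree C t m → HasDegree C (C.push (snd A Z) t) n → n = c * m := by
  obtain ⟨κ, hκ, h1⟩ := exists_kappa hS (A.prod Z)
  obtain ⟨κ', hκ', h2⟩ := exists_kappa hS Z
  obtain ⟨a, ha, -, ha2⟩ := exists_deg_one C (A.prod Z)
  have h3 : HasDegree C a 1 := by
    have := ha2 (A.prod Z)
    unfold HasDegree
    rw [one_smul]
    exact this
  obtain ⟨c, hc⟩ := hasDegree_exists hS (i := (Z.dim : ℤ)) rfl (t := C.push (snd A Z) a) (by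
    have h4 := C.push_mem (snd A Z) ha
    have h5 : ((A.prod Z).dim : ℤ) + 1 * ((Z.dim : ℤ) - (A.prod Z).dim) = Z.dim := by ring
    rwa [h5] at h4)
  have h4 : κ = (c : K) * κ' := by
    have h5 := h1 a 1 h3
    have h6 := h2 _ c hc
    rw [H.cl_push, H.tr_push, h5] at h6
    simpa using h6
  have hc0 : c ≠ 0 := by
    rintro rfl
    rw [Rat.cast_zero, zero_mul] at h4
    exact hκ h4
  refine ⟨c, hc0, fun t m n hm hn => ?_⟩
  have h5 := h1 t m hm
  have h6 := h2 _ n hn
  rw [H.cl_push, H.tr_push, h5, h4] at h6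
  have h7 : ((n : K) - ((c * m : ℚ) : K)) * κ' = 0 := by
    push_cast
    rw [sub_mul, ← h6]
    ring
  rcases mul_eq_zero.1 h7 with h8 | h8
  · rw [sub_eq_zero] at h8
    exact_mod_cast h8
  · exact absurd h8 hκ'

include hS h hK in
theorem perfectIn_prod_iff (n : ℤ) :
    PerfectIn C (A.prod Z) n ↔ ∀ j, PerfectIn C Z (n - deg j) := by
  obtain ⟨β, hβ⟩ := exists_form hS (A.prod Z) n
  have h1 : ∀ j, ∃ β' : C.gr Z (n - deg j) →ₗ[ℚ] C.gr Z (Z.dim - (n - deg j)) →ₗ[ℚ] ℚ,
    ∀ (z : C.gr Z (n - deg j)) (w : C.gr Z (Z.dim - (n - deg j))),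
      HasDegree C ((z : C.A Z) * (w : C.A Z)) (β' z w) := fun j => exists_form hS Z (n - deg j)
  choose β' hβ' using h1
  obtain ⟨f, hf⟩ := exists_eqD hS h hK n
  obtain ⟨c, hc, hcd⟩ := exists_const hS A Z
  rw [perfectIn_iff hS _ _ β hβ, perf_pi_iff β β' (eqE h hK n) f c hc ?_]
  · exact forall_congr' fun j => (perfectIn_iff hS _ _ (β' j) (hβ' j)).symm
  · intro x y
    -- the degrees of the components
    have hsum : C.push (snd A Z) ((x : C.A (A.prod Z)) * (y : C.A (A.prod Z))) =
        ∑ j, ((eqE h hK n x j : C.A Z) * (f y j : C.A Z)) := by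
      have h2 := chow_expand h hK x.2
      conv_lhs => rw [h2, Finset.sum_mul, map_sum]
      refine Finset.sum_congr rfl fun j _ => ?_
      rw [hf]
      show C.push (snd A Z) (C.ext (D j) (C.push (snd A Z) (C.pull (fst A Z) (E j) *
          (x : C.A (A.prod Z)))) * (y : C.A (A.prod Z))) =
        C.push (snd A Z) (C.pull (fst A Z) (E j) * (x : C.A (A.prod Z))) *
          C.push (snd A Z) (C.pull (fst A Z) (D j) * (y : C.A (A.prod Z)))
      rw [← C.proj_left, TheoryData.ext, ← mul_assoc, chow_mul_comm (C.pull (fst A Z) (D j))]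
    have hd : HasDegree C (C.push (snd A Z) ((x : C.A (A.prod Z)) * (y : C.A (A.prod Z))))
        (∑ j, β' j (eqE h hK n x j) (f y j)) := by
      rw [hsum]
      have h3 : ∀ s : Finset J, HasDegree C (∑ j ∈ s, ((eqE h hK n x j : C.A Z) * (f y j : C.A Z)))
          (∑ j ∈ s, β' j (eqE h hK n x j) (f y j)) := by
        classical
        intro s
        induction s using Finset.induction_on with
        | empty =>
          simp only [Finset.sum_empty]
          unfold HasDegree TheoryData.down TheoryData.up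
          rw [map_zero, map_zero, zero_smul]
        | insert a s ha ih =>
          rw [Finset.sum_insert ha, Finset.sum_insert ha]
          exact hasDegree_add (hβ' a _ _) ih
      exact h3 Finset.univ
    exact (hcd _ _ _ (hβ x y) hd).symm

include hS h hK in
/-- Every codimension up to the dimension of `A` occurs. -/
theorem exists_deg_eq (hD : ∀ j, D j ∈ DivProd C A (deg j)) {l : ℕ} (hl : l ≤ A.dim) :
    ∃ j, deg j = l := by
  by_contra hcon
  push Not at hcon
  -- classes of codimension `l` on `A` vanish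
  have hzero : ∀ (l : ℕ), (∀ j, deg j ≠ l) → ∀ y ∈ C.gr A l, C.pull (fst A Z) y = 0 := by
    intro l hcon y hy
    rw [chow_expand h hK (C.pull_mem (fst A Z) hy)]
    refine Finset.sum_eq_zero fun j _ => ?_
    rw [← map_mul]
    have h1 : E j * y ∈ C.gr A ((A.dim : ℤ) - deg j + l) := C.mul_mem (h.right j) hy
    rcases lt_or_gt_of_ne (hcon j) with h2 | h2
    · rw [hS.chow_top A _ (by omega), Submodule.mem_bot] at h1
      rw [h1, map_zero, map_zero, C.ext_zero_right]
    · have h3 := C.push_mem (snd A Z) (C.pull_mem (fst A Z) h1)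
      have h4 : (A.dim : ℤ) - deg j + l + 1 * ((Z.dim : ℤ) - (A.prod Z).dim) = l - deg j := by
        rw [Obj.dim_prod]
        push_cast
        ring
      rw [h4, C.gr_neg Z _ (by omega), Submodule.mem_bot] at h3
      rw [h3, C.ext_zero_right]
  obtain ⟨a, ha, -, ha2⟩ := exists_deg_one C A
  obtain ⟨j, hj⟩ : ∃ j, deg j = A.dim := by
    by_contra hcon'
    push Not at hcon'
    have h1 := hzero A.dim hcon' a ha
    have h2 := ha2 Z
    rw [h1, map_zero] at h2
    exact chow_one_ne hS h2.symm
  obtain ⟨L, hL1, hL2, hL3⟩ := hD j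
  have hmem : (L.take l).prod ∈ C.gr A l := by
    have h1 : ∀ L' : List (C.A A), (∀ x ∈ L', x ∈ C.gr A 1) → L'.prod ∈ C.gr A L'.length := by
      intro L'
      induction L' with
      | nil => intro _; simpa using C.one_mem A
      | cons a L' ih =>
        intro h2
        rw [List.prod_cons, List.length_cons]
        have h3 := C.mul_mem (h2 a (by simp)) (ih fun x hx => h2 x (by simp [hx]))
        push_cast
        rwa [add_comm]
    have h2 := h1 (L.take l) fun x hx => hL2 x (List.mem_of_mem_take hx)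
    rwa [List.length_take, hL1, hj, min_eq_left hl] at h2
  have h1 := hzero l hcon _ hmem
  have h2 : C.pull (fst A Z) (D j) = 0 := by
    rw [hL3, ← List.take_append_drop l L, List.prod_append, map_mul, h1, zero_mul]
  have h3 := h.eq j
  rw [map_mul, h2, zero_mul, map_zero] at h3
  exact chow_one_ne hS h3.symm

include hS h hK in
theorem perfectIn_prod_iff' (hD : ∀ j, D j ∈ DivProd C A (deg j)) (n : ℤ) :
    PerfectIn C (A.prod Z) n ↔ ∀ m : ℤ, n - A.dim ≤ m → m ≤ n → PerfectIn C Z m := by
  rw [perfectIn_prod_iff hS h hK n]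
  constructor
  · intro hp m hm1 hm2
    obtain ⟨l, hl⟩ := Int.eq_ofNat_of_zero_le (sub_nonneg.2 hm2)
    obtain ⟨j, hj⟩ := exists_deg_eq hS h hK hD (l := l) (by omega)
    have h1 : n - (deg j : ℤ) = m := by rw [hj]; omega
    rw [← h1]
    exact hp j
  · intro hp j
    have := h.le j
    exact hp _ (by omega) (by omega)

end equivs

end Pool.Agent.Y154.BQ
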