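import Mathlib
import Pool.Agent.Y154.BQ.Kun
import Pool.Agent.W484.CK.Main

/-!
# Perfectness of the pairings for products with almost all abelian varieties
-/

set_option autoImplicit false
set_option linter.unusedSectionVars false

open CategoryTheory AlgebraicGeometry

namespace Pool.Agent.Y154.BQ

open Pool.Agent.W484 Module Polynomial Pool.Agent.H914 Pool.Agent.H914.VarClass Pool.Agent.H914.VarClass.Obj
  Pool.Agent.W492.BB Pool.Agent.W550.Corr Pool.Agent.W484.TB Pool.Agent.W484.HS
  Pool.Agent.W521.Frob Pool.Agent.W521.Count Pool.Agent.W521.Bad Pool.Agent.W521.Descent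
  Pool.Agent.W521.Density Pool.Agent.W484.CK

section

variable {I : Type} [Finite I] (g : I → ℕ) (E : IntermediateField ℚ ℂ) [FiniteDimensional ℚ E]
  {q : ℕ} (hq : 1 < q) (r : ℕ) (hr : ∀ i, r < g i)
  (x : (Σ i, Fin (g i)) → ℤ) (hx : GoodU (splitPrimes E) g q x)

include hq hr hx

theorem pairingForRankOver_of_good : PairingForRankOver E q r (fun i => weil q (polys g x i)) := by
  intro k _ 𝒱 C _ K _ _ _ H _ s A Z πA πZ hsit hF
  refine ⟨(chowForRankOver_of_good g E hq r hr x hx k 𝒱 C K H s A Z πA πZ hsit hF).1, ?_⟩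
  obtain ⟨J, hJ, deg, D, E', hdual, hD, hK⟩ := CH.kunneth_main g E hq r hr x hx
    (isStandard_bridge hsit.standard) hsit.pos (isAbelian_bridge hsit.abelian)
    (πZ := πZ) hsit.rank (nilpotence_bridge hsit.nilpotence)
  have h1 : CH.HasKunneth (CH.chowData C) A Z deg D := CH.hasKunneth_of hdual
    CH.chowData_isCorrTheory (hK (CH.chowData C) CH.chowData_isCorrTheory
      (CH.chowData_actsAsPower (isFrobenius_bridge hF)))
  intro n
  exact perfectIn_prod_iff' (isStandard_bridge hsit.standard) hdual h1 hD n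

end

end Pool.Agent.Y154.BQ
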